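import Mathlib

namespace Pool.Agent.Results.MP_e86a57_co.Full

open Filter Topology

/-- a finite (nonempty, hence bounded) lattice -/
structure FinLattice where
  carrier : Type
  [lat : Lattice carrier]
  [bdd : BoundedOrder carrier]
  [fin : Finite carrier]

attribute [instance] FinLattice.lat FinLattice.bdd FinLattice.fin

/-- `r(L) = |Aut L| / |End_l L|`, endomorphisms preserving `⊔`, `⊓`, `⊥`, `⊤` -/
noncomputable def ratio (L : FinLattice) : ℝ :=
  (Nat.card {f : BoundedLatticeHom L.carrier L.carrier // Function.Bijective f} : ℝ) /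
    (Nat.card (BoundedLatticeHom L.carrier L.carrier) : ℝ)

/-- the limiting set `Λ` -/
def limSet : Set ℝ :=
  {x | x ∈ Set.Icc (0 : ℝ) 1 ∧ ∃ L : ℕ → FinLattice,
    Tendsto (fun k => Nat.card (L k).carrier) atTop atTop ∧
      Tendsto (fun k => ratio (L k)) atTop (𝓝 x)}

inductive W (n m : ℕ) : Type
  | bot | top | a (i : Fin n) | p | q | c (j : Fin m)
  deriving DecidableEq, Fintype

variable {n m : ℕ}

def le : W n m → W n m → Prop
  | .bot, _ => True
  | .top, y => y = .top
  | .a i, y => y = .a i ∨ y = .top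
  | .p, y => y = .p ∨ y = .q ∨ y = .top ∨ ∃ j, y = .c j
  | .q, y => y = .q ∨ y = .top
  | .c j, y => y = .c j ∨ y = .q ∨ y = .top

def sup : W n m → W n m → W n m
  | .bot, y => y
  | .top, _ => .top
  | .a i, .bot => .a i
  | .a i, .a j => if i = j then .a i else .top
  | .a _, _ => .top
  | .p, .bot => .p
  | .p, .a _ => .top
  | .p, y => y
  | .q, .top => .top
  | .q, .a _ => .top
  | .q, _ => .q
  | .c _, .top => .top
  | .c _, .a _ => .top
  | .c _, .q => .q
  | .c i, .c j => if i = j then .c i else .q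
  | .c i, _ => .c i

def inf : W n m → W n m → W n m
  | .top, y => y
  | .bot, _ => .bot
  | .a i, .top => .a i
  | .a i, .a j => if i = j then .a i else .bot
  | .a _, _ => .bot
  | .q, .top => .q
  | .q, .a _ => .bot
  | .q, y => y
  | .p, .bot => .bot
  | .p, .a _ => .bot
  | .p, _ => .p
  | .c _, .bot => .bot
  | .c _, .a _ => .bot
  | .c _, .p => .p
  | .c i, .c j => if i = j then .c i else .p
  | .c i, _ => .c i

instance : Lattice (W n m) where
  le := le
  sup := sup
  inf := inf
  le_refl x := by cases x <;> simp [le]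
  le_trans x y z := by cases x <;> cases y <;> cases z <;> simp [le] <;> aesop
  le_antisymm x y := by cases x <;> cases y <;> simp [le]
  le_sup_left x y := by cases x <;> cases y <;> simp [le, sup] <;> grind
  le_sup_right x y := by cases x <;> cases y <;> simp [le, sup] <;> split_ifs <;> simp_all
  sup_le x y z := by
    cases x <;> cases y <;> cases z <;> simp [le, sup] <;> split_ifs <;> simp_all
  inf_le_left x y := by cases x <;> cases y <;> simp [le, inf] <;> split_ifs <;> simp_all
  inf_le_right x y := by cases x <;> cases y <;> simp [le, inf] <;> split_ifs <;> simp_all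
  le_inf x y z := by
    cases x <;> cases y <;> cases z <;> simp [le, inf] <;> split_ifs <;> simp_all <;> aesop

theorem le_def (x y : W n m) : x ≤ y ↔ le x y := Iff.rfl
theorem sup_def (x y : W n m) : x ⊔ y = sup x y := rfl
theorem inf_def (x y : W n m) : x ⊓ y = inf x y := rfl

instance : BoundedOrder (W n m) where
  top := .top
  bot := .bot
  le_top x := by cases x <;> simp [le_def, le]
  bot_le x := by simp [le_def, le]

theorem top_def : (⊤ : W n m) = .top := rfl
theorem bot_def : (⊥ : W n m) = .bot := rfl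

def comp : W n m → Option (Fin n)
  | .a i => some i
  | _ => none

def Mid (x : W n m) : Prop := x ≠ .bot ∧ x ≠ .top

def rep : Option (Fin n) → W n m
  | none => .p
  | some i => .a i

def kap : Option (Option (Fin m)) → W n m
  | none => .p
  | some none => .q
  | some (some j) => .c j

def emb (k : Option (Option (Fin m))) : Option (Fin n) → W n m
  | none => kap k
  | some i => .a i

theorem compl_of {x y : W n m} (hx : Mid x) (hy : Mid y) (h : comp x ≠ comp y) :
    x ⊔ y = ⊤ ∧ x ⊓ y = ⊥ := by
  cases x <;> cases y <;> simp_all [Mid, comp, sup_def, inf_def, top_def, bot_def, sup, inf]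

theorem comp_ne {x y : W n m} (hx : Mid x) (hy : Mid y) (h : x ⊔ y = ⊤) : comp x ≠ comp y := by
  cases x <;> cases y <;> simp_all [Mid, comp, sup_def, top_def, sup] <;> grind

theorem comp_le {x y : W n m} (hx : Mid x) (hy : Mid y) (h : x ≤ y) : comp x = comp y := by
  cases x <;> cases y <;> simp_all [Mid, comp, le_def, le]

theorem mid_sup {x y : W n m} (hx : Mid x) (hy : Mid y) (h : comp x = comp y) :
    Mid (x ⊔ y) ∧ comp (x ⊔ y) = comp x ∧ Mid (x ⊓ y) ∧ comp (x ⊓ y) = comp x := by
  cases x <;> cases y <;> simp_all [Mid, comp, sup_def, inf_def, sup, inf] <;> grind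

theorem emb_mid (k : Option (Option (Fin m))) (o : Option (Fin n)) :
    Mid (emb k o) ∧ comp (emb k o) = o := by
  rcases o with _ | i
  · rcases k with _ | _ | j <;> simp [emb, kap, Mid, comp]
  · simp [emb, Mid, comp]

theorem three {x y z : W n m} (h1 : x ⊔ y = ⊤) (h2 : x ⊓ y = ⊥) (h3 : x ⊔ z = ⊤) (h4 : x ⊓ z = ⊥)
    (h5 : y ⊔ z = ⊤) (h6 : y ⊓ z = ⊥) : Mid x := by
  have hne : (⊤ : W n m) ≠ ⊥ := by simp [top_def, bot_def]
  constructor
  · intro h
    rw [← bot_def] at h
    subst h
    simp only [bot_sup_eq] at h1 h3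
    subst h1 h3
    exact hne (by simpa using h6)
  · intro h
    rw [← top_def] at h
    subst h
    simp only [top_inf_eq] at h2 h4
    subst h2 h4
    exact hne (by simpa using h5.symm)

def fl (σ : Equiv.Perm (Fin n)) (τ : Equiv.Perm (Fin m)) : W n m → W n m
  | .a i => .a (σ i)
  | .c j => .c (τ j)
  | x => x

def homL (σ : Equiv.Perm (Fin n)) (τ : Equiv.Perm (Fin m)) : BoundedLatticeHom (W n m) (W n m) where
  toFun := fl σ τ
  map_sup' x y := by cases x <;> cases y <;> simp [sup_def, sup, fl] <;> split_ifs <;> simp [fl]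
  map_inf' x y := by cases x <;> cases y <;> simp [inf_def, inf, fl] <;> split_ifs <;> simp [fl]
  map_top' := rfl
  map_bot' := rfl

def fr (π : Equiv.Perm (Option (Fin n))) (k : Option (Option (Fin m))) : W n m → W n m
  | .bot => .bot
  | .top => .top
  | x => emb k (π (comp x))

theorem fr_mid (π : Equiv.Perm (Option (Fin n))) (k : Option (Option (Fin m))) {x : W n m}
    (hx : Mid x) : fr π k x = emb k (π (comp x)) := by
  cases x <;> simp_all [Mid, fr]

theorem tri (x : W n m) : x = ⊥ ∨ x = ⊤ ∨ Mid x := by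
  cases x <;> simp [Mid, top_def, bot_def]

def homR (π : Equiv.Perm (Option (Fin n))) (k : Option (Option (Fin m))) :
    BoundedLatticeHom (W n m) (W n m) where
  toFun := fr π k
  map_sup' x y := by
    have e1 : fr π k (⊤ : W n m) = ⊤ := rfl
    have e2 : fr π k (⊥ : W n m) = ⊥ := rfl
    rcases tri x with rfl | rfl | hx
    · simp [e2]
    · simp [e1]
    rcases tri y with rfl | rfl | hy
    · simp [e2]
    · simp [e1]
    by_cases h : comp x = comp y
    · obtain ⟨h1, h2, -⟩ := mid_sup hx hy h
      rw [fr_mid _ _ h1, fr_mid _ _ hx, fr_mid _ _ hy, h2, h, sup_idem]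
    · rw [(compl_of hx hy h).1, e1, fr_mid _ _ hx, fr_mid _ _ hy]
      refine (compl_of (emb_mid _ _).1 (emb_mid _ _).1 ?_).1.symm
      rw [(emb_mid _ _).2, (emb_mid _ _).2]
      exact π.injective.ne h
  map_inf' x y := by
    have e1 : fr π k (⊤ : W n m) = ⊤ := rfl
    have e2 : fr π k (⊥ : W n m) = ⊥ := rfl
    rcases tri x with rfl | rfl | hx
    · simp [e2]
    · simp [e1]
    rcases tri y with rfl | rfl | hy
    · simp [e2]
    · simp [e1]
    by_cases h : comp x = comp y
    · obtain ⟨-, -, h1, h2⟩ := mid_sup hx hy h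
      rw [fr_mid _ _ h1, fr_mid _ _ hx, fr_mid _ _ hy, h2, h, inf_idem]
    · rw [(compl_of hx hy h).2, e2, fr_mid _ _ hx, fr_mid _ _ hy]
      refine (compl_of (emb_mid _ _).1 (emb_mid _ _).1 ?_).2.symm
      rw [(emb_mid _ _).2, (emb_mid _ _).2]
      exact π.injective.ne h
  map_top' := rfl
  map_bot' := rfl

theorem rep_mid (o : Option (Fin n)) : Mid (rep o : W n m) ∧ comp (rep o : W n m) = o := by
  rcases o with _ | i <;> simp [rep, Mid, comp]

theorem map_mid (hn : 2 ≤ n) (f : BoundedLatticeHom (W n m) (W n m)) {x : W n m} (hx : Mid x) :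
    Mid (f x) := by
  have hc : 2 < Fintype.card (Option (Fin n)) := by simp; omega
  obtain ⟨o1, o2, h1, h2, h3⟩ : ∃ o1 o2 : Option (Fin n), comp x ≠ o1 ∧ comp x ≠ o2 ∧ o1 ≠ o2 := by
    obtain ⟨u, v, w, a, b, c⟩ := Fintype.two_lt_card_iff.1 hc
    by_cases e1 : comp x = u
    · exact ⟨v, w, e1 ▸ a, e1 ▸ b, c⟩
    by_cases e2 : comp x = v
    · exact ⟨u, w, e1, e2 ▸ c, b⟩
    · exact ⟨u, v, e1, e2, a⟩
  have a := compl_of hx (rep_mid o1).1 (by rw [(rep_mid o1).2]; exact h1)
  have b := compl_of hx (rep_mid o2).1 (by rw [(rep_mid o2).2]; exact h2)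
  have c := compl_of (m := m) (rep_mid o1).1 (rep_mid o2).1
    (by rw [(rep_mid o1).2, (rep_mid o2).2]; exact h3)
  apply three (y := f (rep o1)) (z := f (rep o2))
  · rw [← SupHomClass.map_sup, a.1, TopHomClass.map_top]
  · rw [← InfHomClass.map_inf, a.2, BotHomClass.map_bot]
  · rw [← SupHomClass.map_sup, b.1, TopHomClass.map_top]
  · rw [← InfHomClass.map_inf, b.2, BotHomClass.map_bot]
  · rw [← SupHomClass.map_sup, c.1, TopHomClass.map_top]
  · rw [← InfHomClass.map_inf, c.2, BotHomClass.map_bot]

theorem eq_emb {y : W n m} (hy : Mid y) : ∃ k, y = emb k (comp y) := by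
  cases y
  · simp [Mid] at hy
  · simp [Mid] at hy
  · exact ⟨none, rfl⟩
  · exact ⟨none, rfl⟩
  · exact ⟨some none, rfl⟩
  · exact ⟨some (some _), rfl⟩

theorem chain3 {x y z : W n m} (hx : Mid x) (hz : Mid z) (h1 : x ≤ y) (h2 : y ≤ z) (h3 : y ≠ x)
    (h4 : y ≠ z) : x = .p ∧ z = .q ∧ ∃ j, y = .c j := by
  cases x <;> cases y <;> cases z <;> simp_all [Mid, le_def, le]

theorem classify (hn : 2 ≤ n) (hm : 3 ≤ m) (f : BoundedLatticeHom (W n m) (W n m)) :
    (∃ σ τ, f = homL σ τ) ∨ ∃ π k, f = homR π k := by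
  have mono : ∀ x y, x ≤ y → f x ≤ f y := fun x y h => OrderHomClass.mono f h
  have ginj : Function.Injective fun o : Option (Fin n) => comp (f (rep o)) := by
    intro o1 o2 h
    by_contra hne
    have c := compl_of (m := m) (rep_mid o1).1 (rep_mid o2).1
      (by rw [(rep_mid o1).2, (rep_mid o2).2]; exact hne)
    refine comp_ne (map_mid hn f (rep_mid o1).1) (map_mid hn f (rep_mid o2).1) ?_ h
    rw [← SupHomClass.map_sup, c.1, TopHomClass.map_top]
  let π : Equiv.Perm (Option (Fin n)) :=
    Equiv.ofBijective _ (Finite.injective_iff_bijective.1 ginj)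
  have hπ : ∀ o, π o = comp (f (rep o)) := fun o => rfl
  have pc : ∀ j, (W.p : W n m) ≤ W.c j := fun j => by simp [le_def, le]
  have cq : ∀ j, (W.c j : W n m) ≤ W.q := fun j => by simp [le_def, le]
  have mp : Mid (W.p : W n m) := by simp [Mid]
  have mq : Mid (W.q : W n m) := by simp [Mid]
  by_cases hpq : f .p = f .q
  · right
    obtain ⟨k, hk⟩ := eq_emb (map_mid hn f (rep_mid (π.symm none)).1)
    rw [← hπ, Equiv.apply_symm_apply] at hk
    refine ⟨π, k, BoundedLatticeHom.ext fun x => ?_⟩
    rcases tri x with rfl | rfl | hx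
    · simp
    · simp
    have e1 : f x = f (rep (comp x)) := by
      cases x
      · simp [Mid] at hx
      · simp [Mid] at hx
      · rfl
      · rfl
      · exact hpq.symm
      · exact le_antisymm (hpq ▸ mono _ _ (cq _)) (mono _ _ (pc _))
    show f x = fr π k x
    rw [fr_mid _ _ hx, e1]
    generalize comp x = o
    obtain ⟨k', hk'⟩ := eq_emb (map_mid hn f (rep_mid o).1)
    rw [← hπ] at hk'
    rcases h : π o with _ | i
    · have : o = π.symm none := by rw [← h]; simp
      rw [this, hk]
    · rw [hk', h]; rfl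
  · left
    have hs : ∀ i j : Fin m, i ≠ j → f (.c i) ⊔ f (.c j) = f .q ∧ f (.c i) ⊓ f (.c j) = f .p := by
      intro i j h
      rw [← SupHomClass.map_sup, ← InfHomClass.map_inf]
      simp [sup_def, inf_def, sup, inf, h]
    have hne : ∀ i : Fin m, f (.c i) ≠ f .p ∧ f (.c i) ≠ f .q := by
      intro i
      obtain ⟨j, k, h1, h2, h3⟩ : ∃ j k : Fin m, i ≠ j ∧ i ≠ k ∧ j ≠ k := by
        obtain ⟨u, v, w, a, b, c⟩ := (Fintype.two_lt_card_iff (α := Fin m)).1 (by simp; omega)
        by_cases e1 : i = u
        · exact ⟨v, w, e1 ▸ a, e1 ▸ b, c⟩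
        by_cases e2 : i = v
        · exact ⟨u, w, e1, e2 ▸ c, b⟩
        · exact ⟨u, v, e1, e2, a⟩
      constructor
      · intro e
        have a := (hs i j h1).1
        have b := (hs i k h2).1
        have c := (hs j k h3).2
        rw [e, sup_eq_right.2 (mono _ _ (pc _))] at a b
        rw [a, b, inf_idem] at c
        exact hpq c.symm
      · intro e
        have a := (hs i j h1).2
        have b := (hs i k h2).2
        have c := (hs j k h3).1
        rw [e, inf_eq_right.2 (mono _ _ (cq _))] at a b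
        rw [a, b, sup_idem] at c
        exact hpq c
    have h3 := fun i : Fin m => chain3 (map_mid hn f mp) (map_mid hn f mq) (mono _ _ (pc i))
      (mono _ _ (cq i)) (hne i).1 (hne i).2
    obtain ⟨fp, fq, -⟩ := h3 ⟨0, by omega⟩
    choose t ht using fun i => (h3 i).2.2
    have tinj : Function.Injective t := by
      intro i j h
      by_contra hij
      have := (hs i j hij).2
      rw [ht i, ht j, h, inf_idem, ← ht j] at this
      exact (hne j).1 this
    have ha : ∀ i, ∃ j, f (.a i) = .a j := by
      intro i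
      obtain ⟨k', hk'⟩ := eq_emb (map_mid hn f (rep_mid (some i)).1)
      rcases h : comp (f (rep (some i))) with _ | j
      · have : comp (f (rep (some i))) = comp (f (rep none)) := by
          rw [h]; show none = comp (f .p); rw [fp]; rfl
        exact absurd (ginj this) (by simp)
      · rw [h] at hk'; exact ⟨j, hk'⟩
    choose s hs' using ha
    have sinj : Function.Injective s := by
      intro i j h
      have : comp (f (rep (some i))) = comp (f (rep (some j))) := by
        show comp (f (.a i)) = comp (f (.a j))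
        rw [hs', hs', h]
      exact Option.some.inj (ginj this)
    refine ⟨Equiv.ofBijective _ (Finite.injective_iff_bijective.1 sinj),
      Equiv.ofBijective _ (Finite.injective_iff_bijective.1 tinj),
      BoundedLatticeHom.ext fun x => ?_⟩
    cases x
    · exact BotHomClass.map_bot f
    · exact TopHomClass.map_top f
    · exact hs' _
    · exact fp
    · exact fq
    · exact ht _

theorem homL_bij (σ : Equiv.Perm (Fin n)) (τ : Equiv.Perm (Fin m)) :
    Function.Bijective (homL σ τ) := by
  apply Finite.injective_iff_bijective.1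
  intro x y h
  have h' : fl σ τ x = fl σ τ y := h
  cases x <;> cases y <;> simp_all [fl]

theorem homR_pq (π : Equiv.Perm (Option (Fin n))) (k : Option (Option (Fin m))) :
    homR π k .p = homR π k .q := rfl

theorem homL_inj :
    Function.Injective fun x : Equiv.Perm (Fin n) × Equiv.Perm (Fin m) => homL x.1 x.2 := by
  rintro ⟨σ, τ⟩ ⟨σ', τ'⟩ h
  have h1 : ∀ x, fl σ τ x = fl σ' τ' x := fun x => DFunLike.congr_fun h x
  ext i
  · have := h1 (.a i); simp only [fl, W.a.injEq] at this; simp [this]
  · have := h1 (.c i); simp only [fl, W.c.injEq] at this; simp [this]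

theorem homR_inj : Function.Injective
    fun x : Equiv.Perm (Option (Fin n)) × Option (Option (Fin m)) => homR x.1 x.2 := by
  rintro ⟨π, k⟩ ⟨π', k'⟩ h
  have h1 : ∀ o, emb k (π o) = emb k' (π' o) := fun o => by
    have : fr π k (rep o) = fr π' k' (rep o) := DFunLike.congr_fun h (rep o)
    rwa [fr_mid _ _ (rep_mid o).1, fr_mid _ _ (rep_mid o).1, (rep_mid o).2] at this
  have h2 : π = π' := Equiv.ext fun o => by
    have := congrArg comp (h1 o)
    rwa [(emb_mid _ _).2, (emb_mid _ _).2] at this
  subst h2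
  have h3 := h1 (π.symm none)
  rw [Equiv.apply_symm_apply] at h3
  rcases k with _ | _ | j <;> rcases k' with _ | _ | j' <;> simp_all [emb, kap]

theorem card_aut (hn : 2 ≤ n) (hm : 3 ≤ m) :
    Nat.card {f : BoundedLatticeHom (W n m) (W n m) // Function.Bijective f} =
      n.factorial * m.factorial := by
  have : Function.Bijective fun x : Equiv.Perm (Fin n) × Equiv.Perm (Fin m) =>
      (⟨homL x.1 x.2, homL_bij _ _⟩ :
        {f : BoundedLatticeHom (W n m) (W n m) // Function.Bijective f}) := by
    refine ⟨fun x y h => homL_inj (congrArg Subtype.val h), ?_⟩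
    rintro ⟨f, hf⟩
    rcases classify hn hm f with ⟨σ, τ, rfl⟩ | ⟨π, k, rfl⟩
    · exact ⟨(σ, τ), rfl⟩
    · exact absurd (hf.1 (homR_pq π k)) (by simp)
  rw [← Nat.card_eq_of_bijective _ this]
  simp [Fintype.card_perm]

theorem card_end (hn : 2 ≤ n) (hm : 3 ≤ m) :
    Nat.card (BoundedLatticeHom (W n m) (W n m)) =
      n.factorial * m.factorial + (n + 1).factorial * (m + 2) := by
  have : Function.Bijective (Sum.elim
      (fun x : Equiv.Perm (Fin n) × Equiv.Perm (Fin m) => homL x.1 x.2)
      (fun x : Equiv.Perm (Option (Fin n)) × Option (Option (Fin m)) => homR x.1 x.2)) := by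
    refine ⟨homL_inj.sumElim homR_inj ?_, ?_⟩
    · intro x y h
      have := homR_pq y.1 y.2
      rw [← h] at this
      exact absurd ((homL_bij _ _).1 this) (by simp)
    · intro f
      rcases classify hn hm f with ⟨σ, τ, rfl⟩ | ⟨π, k, rfl⟩
      · exact ⟨Sum.inl (σ, τ), rfl⟩
      · exact ⟨Sum.inr (π, k), rfl⟩
  rw [← Nat.card_eq_of_bijective _ this]
  simp [Fintype.card_perm]

def LW (n m : ℕ) : FinLattice := ⟨W n m⟩

theorem ratio_LW (hn : 2 ≤ n) (hm : 3 ≤ m) :
    ratio (LW n m) = (1 + ((n : ℝ) + 1) * (((m : ℝ) + 2) / m.factorial))⁻¹ := by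
  show (Nat.card {f : BoundedLatticeHom (W n m) (W n m) // Function.Bijective f} : ℝ) /
    (Nat.card (BoundedLatticeHom (W n m) (W n m)) : ℝ) = _
  rw [card_aut hn hm, card_end hn hm, Nat.factorial_succ]
  have h1 : (0 : ℝ) < n.factorial := by exact_mod_cast n.factorial_pos
  have h2 : (0 : ℝ) < m.factorial := by exact_mod_cast m.factorial_pos
  push_cast
  field_simp

theorem card_LW : n ≤ Nat.card (LW n m).carrier ∧ m ≤ Nat.card (LW n m).carrier := by
  constructor
  · have := Nat.card_le_card_of_injective (W.a : Fin n → W n m) (fun i j h => W.a.inj h)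
    rwa [Nat.card_fin] at this
  · have := Nat.card_le_card_of_injective (W.c : Fin m → W n m) (fun i j h => W.c.inj h)
    rwa [Nat.card_fin] at this

theorem eps_lim : Tendsto (fun k : ℕ => (((k + 3 : ℕ) : ℝ) + 2) / (k + 3).factorial) atTop (𝓝 0) := by
  have h0 : Tendsto (fun k : ℕ => (2 : ℝ) / ((k : ℝ) + 1)) atTop (𝓝 0) := by
    simpa [div_eq_mul_inv] using tendsto_one_div_add_atTop_nhds_zero_nat.const_mul (2 : ℝ)
  refine squeeze_zero (fun k => by positivity) (fun k => ?_) h0
  have h2 : (0 : ℝ) < (k + 3).factorial := by exact_mod_cast (k + 3).factorial_pos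
  rw [div_le_div_iff₀ h2 (by positivity)]
  have h3 : (k + 3 + 2) * (k + 1) ≤ 2 * (k + 3).factorial := by
    rw [Nat.factorial_succ, Nat.factorial_succ]
    have := (k + 1).factorial_pos
    nlinarith [Nat.mul_le_mul_left ((k + 2 + 1) * (k + 1 + 1)) this]
  exact_mod_cast h3

theorem result : limSet = Set.Icc 0 1 := by
  apply Set.Subset.antisymm (fun x hx => hx.1)
  intro x hx
  refine ⟨hx, ?_⟩
  rcases hx.1.eq_or_lt with rfl | h0
  · refine ⟨fun k => LW (k + 2) 3, ?_, ?_⟩
    · exact tendsto_atTop_mono (fun k => le_trans (by simp) card_LW.1) tendsto_id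
    · simp only [ratio_LW (Nat.le_add_left 2 _) le_rfl]
      apply Tendsto.inv_tendsto_atTop
      apply tendsto_atTop_add_const_left
      apply Tendsto.atTop_mul_const (by positivity)
      apply tendsto_atTop_add_const_right
      exact tendsto_natCast_atTop_atTop.comp (tendsto_add_atTop_nat 2)
  · set e : ℕ → ℝ := fun k => (((k + 3 : ℕ) : ℝ) + 2) / (k + 3).factorial with he
    have epos : ∀ k, 0 < e k := fun k => by
      have h2 : (0 : ℝ) < (k + 3).factorial := by exact_mod_cast (k + 3).factorial_pos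
      positivity
    have hy : 0 ≤ x⁻¹ - 1 := by
      have := (one_le_inv₀ h0).2 hx.2
      linarith
    refine ⟨fun k => LW (⌊(x⁻¹ - 1) / e k⌋₊ + 2) (k + 3), ?_, ?_⟩
    · exact tendsto_atTop_mono (fun k => le_trans (by simp) card_LW.2) tendsto_id
    · simp only [ratio_LW (Nat.le_add_left 2 _) (Nat.le_add_left 3 _)]
      have hl : Tendsto (fun k => (((⌊(x⁻¹ - 1) / e k⌋₊ + 2 : ℕ) : ℝ) + 1) * e k) atTop
          (𝓝 (x⁻¹ - 1)) := by
        have up : Tendsto (fun k => (x⁻¹ - 1) + 3 * e k) atTop (𝓝 (x⁻¹ - 1)) := by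
          have := (eps_lim.const_mul (3 : ℝ)).const_add (x⁻¹ - 1)
          rwa [mul_zero, add_zero] at this
        refine tendsto_of_tendsto_of_tendsto_of_le_of_le tendsto_const_nhds up ?_ ?_
        · intro k
          have h1 := Nat.lt_floor_add_one ((x⁻¹ - 1) / e k)
          rw [div_lt_iff₀ (epos k)] at h1
          have := epos k
          push_cast
          nlinarith
        · intro k
          have h1 := Nat.floor_le (div_nonneg hy (epos k).le)
          rw [le_div_iff₀ (epos k)] at h1
          push_cast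
          nlinarith
      have := (hl.const_add 1).inv₀ (by simpa using h0.ne')
      rwa [add_sub_cancel, inv_inv] at this

end Pool.Agent.Results.MP_e86a57_co.Full
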